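import Pool.Agent.Q120.SI.Main

/-!
# Project LG: assembly
-/

set_option autoImplicit false

namespace Pool.Agent.Q120.LG

open Finset MeasureTheory Filter Pool.Agent.Q120.ET Pool.Agent.Q120.GM Pool.Agent.Q120.GE Pool.Agent.Q120.RZ Pool.Agent.Q120.SI
open scoped Topology

/-- The jobs. -/
structure LJobs : Prop where
  si : SI.Jobs
  gup : J_GUP
  glo : J_GLO
  gha : J_GHA
  gfo : J_GFO

/-- The number of gaps is at most `2 ^ ((θ + o(1)) k)`. -/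
def Upper (c θ : ℝ) (S : Set ℕ) : Prop := ∀ ε : ℝ, 0 < ε → ∀ᶠ k : ℕ in atTop, (NB S c k : ℝ) ≤ (2 : ℝ) ^ ((θ + ε) * k)

/-- The number of gaps is `2 ^ ((1 - c + o(1)) k)`. -/
def Growth (c : ℝ) (S : Set ℕ) : Prop :=
  ∀ ε : ℝ, 0 < ε → ∀ᶠ k : ℕ in atTop, (2 : ℝ) ^ ((1 - c - ε) * k) ≤ NB S c k ∧ (NB S c k : ℝ) ≤ (2 : ℝ) ^ ((1 - c + ε) * k)

/-- Infinitely many gaps larger than `c log ^ 2`. -/
def InfGaps (c : ℝ) (S : Set ℕ) : Prop :=
  ∃ᶠ a : ℕ in atTop, a ∈ S ∧ ∀ n ∈ S, ¬ (a < n ∧ (n : ℝ) ≤ a + c * Real.log a ^ 2)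

/-- The largest gap up to `X` is larger than `c log ^ 2 X`. -/
def LowG (c : ℝ) (S : Set ℕ) : Prop :=
  ∀ᶠ X : ℕ in atTop, ∃ a ∈ S, a ≤ X ∧ ∀ n ∈ S, ¬ (a < n ∧ (n : ℝ) ≤ a + c * Real.log X ^ 2)

theorem log_ge {k a : ℕ} (ha : a ∈ block k) : k * Real.log 2 ≤ Real.log a := by
  rw [block, mem_Ico] at ha
  have h1 : (2 : ℝ) ^ k ≤ a := by exact_mod_cast ha.1
  have h2 := Real.log_le_log (by positivity) h1
  rwa [Real.log_pow] at h2

theorem log_le {k a : ℕ} (ha : a ∈ block k) : Real.log a ≤ (k + 1) * Real.log 2 := by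
  rw [block, mem_Ico] at ha
  have h0 : 0 < a := lt_of_lt_of_le (by positivity) ha.1
  have h1 : (a : ℝ) ≤ (2 : ℝ) ^ (k + 1) := by exact_mod_cast ha.2.le
  have h2 := Real.log_le_log (by exact_mod_cast h0) h1
  rw [Real.log_pow] at h2
  push_cast at h2
  exact h2

theorem sq_log_ge {k a : ℕ} (ha : a ∈ block k) : (k * Real.log 2) ^ 2 ≤ Real.log a ^ 2 := by
  have h1 : 0 < Real.log 2 := Real.log_pos (by norm_num)
  exact pow_le_pow_left₀ (by positivity) (log_ge ha) 2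

theorem sq_log_le {k a : ℕ} (ha : a ∈ block k) : Real.log a ^ 2 ≤ ((k + 1) * Real.log 2) ^ 2 := by
  have h1 : 0 < Real.log 2 := Real.log_pos (by norm_num)
  have h2 : 0 ≤ Real.log a := le_trans (by positivity) (log_ge ha)
  exact pow_le_pow_left₀ h2 (log_le ha) 2

variable {Ω : Type} [MeasurableSpace Ω] {μ : Measure Ω} [IsProbabilityMeasure μ] {A : Ω → Set ℕ}

omit [IsProbabilityMeasure μ] in
theorem NB_le (A : Ω → Set ℕ) (ω : Ω) {c : ℝ} (hc : 0 < c) (k : ℕ) :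
    NB (A ω) c k ≤ ngb (tr A (block k) ω) k ⌊c * (k * Real.log 2) ^ 2⌋₊ + 1 := by
  classical
  set h : ℕ := ⌊c * (k * Real.log 2) ^ 2⌋₊ with hh
  unfold NB ngb
  have hwin : ∀ a ∈ block k, (∀ n ∈ A ω, ¬ (a < n ∧ (n : ℝ) ≤ a + c * Real.log a ^ 2)) →
      ∀ n ∈ A ω, ¬ (a < n ∧ n ≤ a + h) := by
    intro a ha h1 n hn h2
    refine h1 n hn ⟨h2.1, ?_⟩
    have h3 : (n : ℝ) ≤ a + h := by exact_mod_cast h2.2
    have h4 : (h : ℝ) ≤ c * (k * Real.log 2) ^ 2 := Nat.floor_le (by positivity)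
    have h5 := mul_le_mul_of_nonneg_left (sq_log_ge ha) hc.le
    linarith
  have hsub : (block k).filter (fun a => a ∈ A ω ∧ ∀ n ∈ A ω, ¬ (a < n ∧ (n : ℝ) ≤ a + c * Real.log a ^ 2)) ⊆
      (block k).filter (fun a => a ∈ tr A (block k) ω ∧ a + h < 2 ^ (k + 1) ∧ ∀ n ∈ tr A (block k) ω, ¬ (a < n ∧ n ≤ a + h)) ∪
      (block k).filter (fun a => a ∈ A ω ∧ 2 ^ (k + 1) ≤ a + h ∧ ∀ n ∈ A ω, ¬ (a < n ∧ n ≤ a + h)) := by
    intro a ha
    rw [mem_filter] at ha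
    rw [mem_union, mem_filter, mem_filter]
    have h1 := hwin a ha.1 ha.2.2
    rcases lt_or_ge (a + h) (2 ^ (k + 1)) with h2 | h2
    · exact Or.inl ⟨ha.1, mem_tr.2 ⟨ha.1, ha.2.1⟩, h2, fun n hn => h1 n (mem_tr.1 hn).2⟩
    · exact Or.inr ⟨ha.1, ha.2.1, h2, h1⟩
  refine (card_le_card hsub).trans ((card_union_le _ _).trans (Nat.add_le_add_left ?_ _))
  rw [card_le_one]
  intro a ha b hb
  rw [mem_filter] at ha hb
  by_contra hab
  have h1 := ha.1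
  have h2 := hb.1
  rw [block, mem_Ico] at h1 h2
  rcases lt_or_gt_of_ne hab with h3 | h3
  · exact ha.2.2.2 b hb.2.1 ⟨h3, by omega⟩
  · exact hb.2.2.2 a ha.2.1 ⟨h3, by omega⟩

omit [IsProbabilityMeasure μ] in
theorem le_NB (A : Ω → Set ℕ) (ω : Ω) {c : ℝ} (hc : 0 < c) (k : ℕ) :
    ngb (tr A (block k) ω) k ⌈c * ((k + 1) * Real.log 2) ^ 2⌉₊ ≤ NB (A ω) c k := by
  classical
  set h : ℕ := ⌈c * ((k + 1) * Real.log 2) ^ 2⌉₊ with hh
  unfold NB ngb
  refine card_le_card (fun a ha => ?_)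
  rw [mem_filter] at ha ⊢
  refine ⟨ha.1, (mem_tr.1 ha.2.1).2, fun n hn h1 => ?_⟩
  have h2 : (n : ℝ) ≤ ((a + h : ℕ) : ℝ) := by
    push_cast
    have h3 : c * ((k + 1) * Real.log 2) ^ 2 ≤ h := Nat.le_ceil _
    have h4 := mul_le_mul_of_nonneg_left (sq_log_le ha.1) hc.le
    linarith
  have h3 : n ≤ a + h := by exact_mod_cast h2
  have h4 := ha.1
  rw [block, mem_Ico] at h4
  refine ha.2.2.2 n (mem_tr.2 ⟨?_, hn⟩) ⟨h1.1, h3⟩
  rw [block, mem_Ico]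
  have := ha.2.2.1
  omega

/-- **Upper bound.** -/
theorem all_upper (J : LJobs) {δ c θ : ℝ} (hδ : 0 ≤ δ) (hc : 0 < c) (hθ : max (1 - c) δ ≤ θ) : AllLevel δ (Upper c θ) := by
  classical
  intro Ω _ μ _ A hA hD
  have h1 : ∀ n : ℕ, ∀ᵐ ω ∂μ, ∀ᶠ k : ℕ in atTop, (NB (A ω) c k : ℝ) ≤ (2 : ℝ) ^ ((θ + 1 / ((n : ℝ) + 1)) * k) := by
    intro n
    set ε : ℝ := 1 / ((n : ℝ) + 1) with hε
    have hε0 : 0 < ε := by positivity
    set β : ℝ := max (1 - c) δ + ε / 2 with hβ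
    have hβ0 : 0 < β := by
      have := le_max_right (1 - c) δ
      linarith
    have hβc : 1 - c < β := by
      have := le_max_left (1 - c) δ
      linarith
    obtain ⟨κ, hκ, hG⟩ := J.gup c β hc hβ0 hβc
    have h2 := bc (μ := μ) (B := fun k => {ω | (2 : ℝ) ^ (β * k) ≤ ngb (tr A (block k) ω) k ⌊c * (k * Real.log 2) ^ 2⌋₊})
      (g := fun k => 4 / κ * ((k : ℝ) ^ 0 / (2 : ℝ) ^ (ε / 4 * k))) ((summable_pow_div (by positivity) 0).mul_left _) (by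
      filter_upwards [hG, hD (ε / 4) (by positivity), eventually_ge_atTop 2] with k hk hk2 hk3
      have hk0 : (1 : ℝ) ≤ k := by
        have : 1 ≤ k := by omega
        exact_mod_cast this
      have hu : 0 < κ * k * (2 : ℝ) ^ (β * k) / 2 := by positivity
      have h3 := J.si.entb k hk3 (fun T => (2 : ℝ) ^ (β * k) ≤ ngb T k ⌊c * (k * Real.log 2) ^ 2⌋₊)
        (κ * k * (2 : ℝ) ^ (β * k) / 2) hu (by
          intro Ω' _ μ' _ A' hA'
          refine (hk Ω' μ' A' hA').trans (le_of_eq ?_)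
          congr 1
          ring) Ω μ A hA
      refine h3.trans ?_
      have h5 : Real.exp (-(κ * k * (2 : ℝ) ^ (β * k) / 2)) ≤ 1 := by
        rw [Real.exp_le_one_iff]
        linarith
      have h6 : (1 : ℝ) ≤ (2 : ℝ) ^ ((δ + ε / 4) * k) := Real.one_le_rpow (by norm_num) (by positivity)
      have h7 : (2 : ℝ) ^ ((δ + ε / 4) * k) * (2 : ℝ) ^ (ε / 4 * k) ≤ (2 : ℝ) ^ (β * k) := by
        rw [← Real.rpow_add (by norm_num)]
        apply Real.rpow_le_rpow_of_exponent_le (by norm_num)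
        have := le_max_right (1 - c) δ
        nlinarith
      have hp : (0 : ℝ) < (2 : ℝ) ^ (ε / 4 * k) := by positivity
      rw [pow_zero, ← mul_div_assoc, mul_one, div_div, div_le_div_iff₀ hu (by positivity)]
      calc (relEntropy μ A (block k) + Real.exp (-(κ * k * (2 : ℝ) ^ (β * k) / 2))) * (κ * (2 : ℝ) ^ (ε / 4 * k))
          ≤ (2 * (2 : ℝ) ^ ((δ + ε / 4) * k)) * (κ * (2 : ℝ) ^ (ε / 4 * k)) := by
            refine mul_le_mul_of_nonneg_right ?_ (by positivity)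
            linarith
        _ = 2 * κ * ((2 : ℝ) ^ ((δ + ε / 4) * k) * (2 : ℝ) ^ (ε / 4 * k)) := by ring
        _ ≤ 2 * κ * (2 : ℝ) ^ (β * k) := mul_le_mul_of_nonneg_left h7 (by positivity)
        _ ≤ 2 * κ * (2 : ℝ) ^ (β * k) * k := le_mul_of_one_le_right (by positivity) hk0
        _ = 4 * (κ * k * (2 : ℝ) ^ (β * k) / 2) := by ring)
    filter_upwards [h2] with ω hω
    filter_upwards [hω, ev_pow_le (show (0 : ℝ) < ε / 2 by positivity) 0 2] with k hk hk2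
    have h3 : (ngb (tr A (block k) ω) k ⌊c * (k * Real.log 2) ^ 2⌋₊ : ℝ) < (2 : ℝ) ^ (β * k) := not_le.1 hk
    have h4 : (NB (A ω) c k : ℝ) ≤ ngb (tr A (block k) ω) k ⌊c * (k * Real.log 2) ^ 2⌋₊ + 1 := by
      exact_mod_cast NB_le A ω hc k
    have h5 : (1 : ℝ) ≤ (2 : ℝ) ^ (β * k) := Real.one_le_rpow (by norm_num) (by positivity)
    rw [pow_zero, mul_one] at hk2
    calc (NB (A ω) c k : ℝ) ≤ 2 * (2 : ℝ) ^ (β * k) := by linarith
      _ ≤ (2 : ℝ) ^ (ε / 2 * k) * (2 : ℝ) ^ (β * k) := mul_le_mul_of_nonneg_right hk2 (by positivity)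
      _ ≤ (2 : ℝ) ^ ((θ + ε) * k) := by
          rw [← Real.rpow_add (by norm_num)]
          apply Real.rpow_le_rpow_of_exponent_le (by norm_num)
          have : (0 : ℝ) ≤ k := Nat.cast_nonneg k
          nlinarith
  filter_upwards [ae_all_iff.2 h1] with ω hω ε hε
  obtain ⟨n, hn⟩ := exists_nat_one_div_lt hε
  filter_upwards [hω n] with k hk
  refine hk.trans (Real.rpow_le_rpow_of_exponent_le (by norm_num) ?_)
  have : (0 : ℝ) ≤ k := Nat.cast_nonneg k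
  nlinarith

/-- **Lower bound.** -/
theorem all_lower (J : LJobs) {δ c : ℝ} (hc : 0 < c) (hδ : c < 1 - δ) (hδ0 : 0 ≤ δ) :
    AllLevel δ (fun S => ∀ ε : ℝ, 0 < ε → ∀ᶠ k : ℕ in atTop, (2 : ℝ) ^ ((1 - c - ε) * k) ≤ NB S c k) := by
  classical
  intro Ω _ μ _ A hA hD
  have h1 : ∀ n : ℕ, ∀ᵐ ω ∂μ, ∀ᶠ k : ℕ in atTop,
      (2 : ℝ) ^ ((1 - c - min (1 / ((n : ℝ) + 1)) ((1 - c - δ) / 2)) * k) ≤ NB (A ω) c k := by
    intro n
    set ε : ℝ := min (1 / ((n : ℝ) + 1)) ((1 - c - δ) / 2) with hε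
    have hε0 : 0 < ε := lt_min (by positivity) (by linarith)
    have hε1 : ε ≤ (1 - c - δ) / 2 := min_le_right _ _
    set ρ : ℝ := (1 - c - δ) / 4 with hρ
    have hρ0 : 0 < ρ := by
      rw [hρ]
      linarith
    have h2 := bc (μ := μ) (B := fun k => {ω | (ngb (tr A (block k) ω) k ⌈c * ((k + 1) * Real.log 2) ^ 2⌉₊ : ℝ) ≤
        (2 : ℝ) ^ ((1 - c - ε) * k)})
      (g := fun k => 4 * ((k : ℝ) ^ 0 / (2 : ℝ) ^ (ρ * k))) ((summable_pow_div (by positivity) 0).mul_left _) (by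
      filter_upwards [J.glo c (1 - c - ε) hc (by linarith), hD ρ hρ0, eventually_ge_atTop 2] with k hk hk2 hk3
      have hk0 : (0 : ℝ) ≤ k := Nat.cast_nonneg k
      have hu : 0 < (2 : ℝ) ^ ((1 - c - ε) * k) / 2 := by positivity
      have h3 := J.si.entb k hk3 (fun T => (ngb T k ⌈c * ((k + 1) * Real.log 2) ^ 2⌉₊ : ℝ) ≤ (2 : ℝ) ^ ((1 - c - ε) * k))
        ((2 : ℝ) ^ ((1 - c - ε) * k) / 2) hu (by
          intro Ω' _ μ' _ A' hA'
          refine (hk Ω' μ' A' hA').trans (le_of_eq ?_)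
          congr 1
          ring) Ω μ A hA
      refine h3.trans ?_
      have h5 : Real.exp (-((2 : ℝ) ^ ((1 - c - ε) * k) / 2)) ≤ 1 := by
        rw [Real.exp_le_one_iff]
        linarith
      have h6 : (1 : ℝ) ≤ (2 : ℝ) ^ ((δ + ρ) * k) := Real.one_le_rpow (by norm_num) (by positivity)
      have h7 : (2 : ℝ) ^ ((δ + ρ) * k) * (2 : ℝ) ^ (ρ * k) ≤ (2 : ℝ) ^ ((1 - c - ε) * k) := by
        rw [← Real.rpow_add (by norm_num)]
        apply Real.rpow_le_rpow_of_exponent_le (by norm_num)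
        have : δ + ρ + ρ ≤ 1 - c - ε := by
          rw [hρ]
          linarith
        nlinarith
      have hp : (0 : ℝ) < (2 : ℝ) ^ (ρ * k) := by positivity
      rw [pow_zero, ← mul_div_assoc, mul_one, div_le_div_iff₀ hu hp]
      calc (relEntropy μ A (block k) + Real.exp (-((2 : ℝ) ^ ((1 - c - ε) * k) / 2))) * (2 : ℝ) ^ (ρ * k)
          ≤ (2 * (2 : ℝ) ^ ((δ + ρ) * k)) * (2 : ℝ) ^ (ρ * k) := by
            refine mul_le_mul_of_nonneg_right ?_ hp.le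
            linarith
        _ = 2 * ((2 : ℝ) ^ ((δ + ρ) * k) * (2 : ℝ) ^ (ρ * k)) := by ring
        _ ≤ 2 * (2 : ℝ) ^ ((1 - c - ε) * k) := mul_le_mul_of_nonneg_left h7 (by norm_num)
        _ = 4 * ((2 : ℝ) ^ ((1 - c - ε) * k) / 2) := by ring)
    filter_upwards [h2] with ω hω
    filter_upwards [hω] with k hk
    have h3 : (2 : ℝ) ^ ((1 - c - ε) * k) < (ngb (tr A (block k) ω) k ⌈c * ((k + 1) * Real.log 2) ^ 2⌉₊ : ℝ) := not_le.1 hk
    have h4 : (ngb (tr A (block k) ω) k ⌈c * ((k + 1) * Real.log 2) ^ 2⌉₊ : ℝ) ≤ NB (A ω) c k := by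
      exact_mod_cast le_NB A ω hc k
    linarith
  filter_upwards [ae_all_iff.2 h1] with ω hω ε hε
  obtain ⟨n, hn⟩ := exists_nat_one_div_lt hε
  filter_upwards [hω n] with k hk
  refine le_trans (Real.rpow_le_rpow_of_exponent_le (by norm_num) ?_) hk
  have : (0 : ℝ) ≤ k := Nat.cast_nonneg k
  have h2 : min (1 / ((n : ℝ) + 1)) ((1 - c - δ) / 2) ≤ ε := (min_le_left _ _).trans hn.le
  nlinarith

/-- **No long gaps.** -/
theorem some_none (J : LJobs) {δ : ℝ} (hδ : 0 ≤ δ) (hδ1 : δ < 1) :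
    SomeLevel δ (fun S => (∀ᶠ a : ℕ in atTop, a ∈ S → ∃ n ∈ S, a < n ∧ (n : ℝ) ≤ a + (1 - δ) * Real.log a ^ 2) ∧
      ∀ a : ℕ, ∃ n ∈ S, a < n) := by
  classical
  obtain ⟨P, hP1, hP2, hP3⟩ := J.gha (1 - δ) (by linarith) (by linarith)
  obtain ⟨Ω, mΩ, μ, hμ, A, hA, hent, -, hall⟩ := J.si.mixb P (fun _ => 1) (fun k => {T | NoGap (1 - δ) k T}) hP1
    (fun _ => ⟨zero_le_one, le_rfl⟩)
  refine ⟨Ω, mΩ, μ, hμ, A, hA, ?_, ?_⟩
  · intro ε hε
    filter_upwards [hP2 ε hε, eventually_ge_atTop 2] with k hk hk2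
    refine (hent k hk2).trans ?_
    rw [one_mul]
    refine hk.trans (le_of_eq ?_)
    congr 2
    ring
  · have hsum : Summable (fun k => ∑ T ∈ (block k).powerset with ¬ T ∈ {T : Finset ℕ | NoGap (1 - δ) k T}, P k T) := by
      obtain ⟨K, hK⟩ := eventually_atTop.1 hP3
      refine summable_of_ne_finset_zero (s := range K) (fun k hk => ?_)
      rw [mem_range, not_lt] at hk
      refine sum_eq_zero (fun T hT => ?_)
      rw [mem_filter] at hT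
      by_contra h
      exact hT.2 (hK k hk T hT.1 h)
    filter_upwards [hall (fun _ => rfl) hsum] with ω hω
    obtain ⟨K, hK⟩ := eventually_atTop.1 hω
    have hl2 : 0 < Real.log 2 := Real.log_pos (by norm_num)
    have hδ2 : 0 < 1 - δ := by linarith
    refine ⟨?_, fun a => ?_⟩
    swap
    · have h1 : NoGap (1 - δ) (max K a) (tr A (block (max K a)) ω) := hK _ (le_max_left _ _)
      obtain ⟨n, hn, -⟩ := h1.1
      obtain ⟨hnb, hnA⟩ := mem_tr.1 hn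
      refine ⟨n, hnA, ?_⟩
      rw [block, mem_Ico] at hnb
      have h2 : max K a < 2 ^ (max K a) := Nat.lt_two_pow_self
      have h3 := le_max_right K a
      omega
    filter_upwards [eventually_ge_atTop (2 ^ (max K 3))] with a ha haA
    obtain ⟨k, hk⟩ : ∃ k, k = Nat.log 2 a := ⟨_, rfl⟩
    have ha0 : a ≠ 0 := by
      have : 0 < 2 ^ (max K 3) := by positivity
      omega
    have hab : a ∈ block k := by
      rw [hk, block, mem_Ico]
      exact ⟨Nat.pow_log_le_self 2 ha0, Nat.lt_pow_succ_log_self (by norm_num) a⟩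
    have hk1 : max K 3 ≤ k := by
      rw [hk]
      exact Nat.le_log_of_pow_le (by norm_num) ha
    have hk3 : (3 : ℝ) ≤ k := by
      have : 3 ≤ k := (le_max_right _ _).trans hk1
      exact_mod_cast this
    have h1 : NoGap (1 - δ) k (tr A (block k) ω) := hK k ((le_max_left _ _).trans hk1)
    have h2 : NoGap (1 - δ) (k + 1) (tr A (block (k + 1)) ω) := hK (k + 1) (by
      have := (le_max_left K 3).trans hk1
      omega)
    have h3 := mul_le_mul_of_nonneg_left (sq_log_ge hab) hδ2.le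
    rcases h1.2 a (mem_tr.2 ⟨hab, haA⟩) with ⟨n, hn, h4, h5⟩ | h4
    · exact ⟨n, (mem_tr.1 hn).2, h4, by linarith⟩
    · obtain ⟨n, hn, h5⟩ := h2.1
      have hnb := (mem_tr.1 hn).1
      refine ⟨n, (mem_tr.1 hn).2, ?_, ?_⟩
      · rw [block, mem_Ico] at hab hnb
        omega
      · push_cast at h5
        have h6 : (((k : ℝ) + 1) * Real.log 2) ^ 2 ≤ 2 * (k * Real.log 2) ^ 2 := by
          have h7 : ((k : ℝ) + 1) ^ 2 ≤ 2 * (k : ℝ) ^ 2 := by nlinarith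
          calc (((k : ℝ) + 1) * Real.log 2) ^ 2 = ((k : ℝ) + 1) ^ 2 * Real.log 2 ^ 2 := by ring
            _ ≤ (2 * (k : ℝ) ^ 2) * Real.log 2 ^ 2 := mul_le_mul_of_nonneg_right h7 (by positivity)
            _ = 2 * (k * Real.log 2) ^ 2 := by ring
        have h8 := mul_le_mul_of_nonneg_left h6 hδ2.le
        linarith

theorem some_many (J : LJobs) {δ : ℝ} (hδ : 0 < δ) (hδ1 : δ < 1) :
    SomeLevel δ (fun S => ∀ C ε : ℝ, 0 < ε → ∀ᶠ k : ℕ in atTop, (2 : ℝ) ^ ((δ - ε) * k) ≤ NB S C k) := by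
  refine J.gfo J.si.mixb (fun k hk I hI => ?_) δ hδ hδ1
  obtain ⟨P, h1, h2, h3, -, h4, h5⟩ := J.si.tlt J.si.tail J.si.kl k hk I hI 1 zero_le_one le_rfl
  refine ⟨P, h1, h2, ?_, h4, h5 rfl⟩
  rw [one_pow, one_mul] at h3
  exact h3

/-- The classes are not empty. -/
theorem some_of_all (J : LJobs) {δ δ' : ℝ} {E : Set ℕ → Prop} (h : AllLevel δ E) : SomeLevel δ' E := by
  classical
  obtain ⟨Ω, mΩ, μ, hμ, A, hA, hent, -, -⟩ := J.si.mixb (fun k T => cramerOn (block k) T) (fun _ => 0) (fun _ => Set.univ)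
    (fun k hk => ⟨fun T hT => (cramerOn_pos (fun n hn => three_le_of_mem_block hk hn) (mem_powerset.1 hT)).le, sum_cramerOn _⟩)
    (fun _ => ⟨le_rfl, zero_le_one⟩)
  have h0 : ∀ k, 2 ≤ k → relEntropy μ A (block k) ≤ 0 := fun k hk => (hent k hk).trans (by rw [zero_mul])
  refine ⟨Ω, mΩ, μ, hμ, A, hA, ?_, ?_⟩
  · intro ε hε
    filter_upwards [eventually_ge_atTop 2] with k hk
    exact (h0 k hk).trans (by positivity)
  · refine h Ω μ A hA (fun ε hε => ?_)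
    filter_upwards [eventually_ge_atTop 2] with k hk
    exact (h0 k hk).trans (by positivity)

theorem NB_pos_of_block {S : Set ℕ} {c : ℝ} {k : ℕ} (h : NB S c k ≠ 0) :
    ∃ a ∈ block k, a ∈ S ∧ ∀ n ∈ S, ¬ (a < n ∧ (n : ℝ) ≤ a + c * Real.log a ^ 2) := by
  classical
  unfold NB at h
  obtain ⟨a, ha⟩ := card_ne_zero.1 h
  rw [mem_filter] at ha
  exact ⟨a, ha.1, ha.2⟩

theorem NB_zero_of {S : Set ℕ} {c c' : ℝ} (hc : c' ≤ c)
    (h : ∀ᶠ a : ℕ in atTop, a ∈ S → ∃ n ∈ S, a < n ∧ (n : ℝ) ≤ a + c' * Real.log a ^ 2) : ∀ᶠ k : ℕ in atTop, NB S c k = 0 := by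
  classical
  obtain ⟨K, hK⟩ := eventually_atTop.1 h
  filter_upwards [eventually_ge_atTop K] with k hk
  by_contra h1
  obtain ⟨a, ha, haS, h2⟩ := NB_pos_of_block h1
  rw [block, mem_Ico] at ha
  have h3 : K ≤ a := by
    have : k < 2 ^ k := Nat.lt_two_pow_self
    omega
  obtain ⟨n, hn, h4, h5⟩ := hK a h3 haS
  refine h2 n hn ⟨h4, ?_⟩
  have h6 := mul_le_mul_of_nonneg_right hc (sq_nonneg (Real.log a))
  linarith

/-- (I) -/
theorem growth_iff (J : LJobs) {δ c : ℝ} (hδ : 0 ≤ δ) (hδ1 : δ < 1) (hc : 0 < c) : AllLevel δ (Growth c) ↔ c < 1 - δ := by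
  constructor
  · intro h
    by_contra h1
    rw [not_lt] at h1
    refine SI.not_all (some_none J hδ hδ1) (fun S hS hG => ?_) h
    obtain ⟨k, hk1, hk2⟩ := ((NB_zero_of h1 hS.1).and (hG 1 one_pos)).exists
    rw [hk1, Nat.cast_zero] at hk2
    have : (0 : ℝ) < (2 : ℝ) ^ ((1 - c - 1) * k) := by positivity
    linarith [hk2.1]
  · intro h
    have h1 := all_lower J hc h hδ
    have h2 := all_upper J hδ hc (θ := 1 - c) (max_le le_rfl (by linarith))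
    intro Ω _ μ _ A hA hD
    filter_upwards [h1 Ω μ A hA hD, h2 Ω μ A hA hD] with ω h3 h4 ε hε
    filter_upwards [h3 ε hε, h4 ε hε] with k h5 h6
    exact ⟨h5, h6⟩

theorem lowG_of_lower {S : Set ℕ} {c c' : ℝ} (hc : 0 < c) (hcc : c < c') (h : ∀ᶠ k : ℕ in atTop, NB S c' k ≠ 0) : LowG c S := by
  have hl2 : 0 < Real.log 2 := Real.log_pos (by norm_num)
  have hc' : 0 < c' := hc.trans hcc
  -- `c (k + 2)^2 ≤ c' k^2` for large `k`
  have h1 : ∀ᶠ k : ℕ in atTop, c * ((k : ℝ) + 2) ^ 2 ≤ c' * (k : ℝ) ^ 2 := by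
    have h2 : Tendsto (fun k : ℕ => (c' - c) * (k : ℝ)) atTop atTop :=
      tendsto_natCast_atTop_atTop.const_mul_atTop (by linarith)
    filter_upwards [h2.eventually_ge_atTop (8 * c), eventually_ge_atTop 1] with k hk hk1
    have hk0 : (1 : ℝ) ≤ k := by exact_mod_cast hk1
    nlinarith
  obtain ⟨K, hK⟩ := eventually_atTop.1 (h.and h1)
  filter_upwards [eventually_ge_atTop (2 ^ (K + 1))] with X hX
  have hX0 : X ≠ 0 := by
    have : 0 < 2 ^ (K + 1) := by positivity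
    omega
  obtain ⟨k, hk⟩ : ∃ k, k = Nat.log 2 X := ⟨_, rfl⟩
  have hXb : X ∈ block k := by
    rw [hk, block, mem_Ico]
    exact ⟨Nat.pow_log_le_self 2 hX0, Nat.lt_pow_succ_log_self (by norm_num) X⟩
  have hk1 : K + 1 ≤ k := by
    rw [hk]
    exact Nat.le_log_of_pow_le (by norm_num) hX
  obtain ⟨j, rfl⟩ : ∃ j, k = j + 1 := ⟨k - 1, by omega⟩
  obtain ⟨h2, h3⟩ := hK j (by omega)
  obtain ⟨a, ha, haS, h4⟩ := NB_pos_of_block h2
  have haX : a ≤ X := by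
    rw [block, mem_Ico] at ha hXb
    omega
  refine ⟨a, haS, haX, fun n hn h5 => h4 n hn ⟨h5.1, ?_⟩⟩
  have h6 : Real.log X ^ 2 ≤ (((j : ℝ) + 2) * Real.log 2) ^ 2 := by
    have := sq_log_le hXb
    push_cast at this
    rw [show (j : ℝ) + 1 + 1 = j + 2 by ring] at this
    exact this
  have h7 : ((j : ℝ) * Real.log 2) ^ 2 ≤ Real.log a ^ 2 := sq_log_ge ha
  have h8 : c * Real.log X ^ 2 ≤ c' * Real.log a ^ 2 := by
    calc c * Real.log X ^ 2 ≤ c * (((j : ℝ) + 2) * Real.log 2) ^ 2 := mul_le_mul_of_nonneg_left h6 hc.le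
      _ = c * ((j : ℝ) + 2) ^ 2 * Real.log 2 ^ 2 := by ring
      _ ≤ c' * (j : ℝ) ^ 2 * Real.log 2 ^ 2 := mul_le_mul_of_nonneg_right h3 (by positivity)
      _ = c' * ((j : ℝ) * Real.log 2) ^ 2 := by ring
      _ ≤ c' * Real.log a ^ 2 := mul_le_mul_of_nonneg_left h7 hc'.le
  linarith [h5.2]

theorem infGaps_of_lower {S : Set ℕ} {c : ℝ} (h : ∀ᶠ k : ℕ in atTop, NB S c k ≠ 0) : InfGaps c S := by
  rw [InfGaps, frequently_atTop]
  intro N
  obtain ⟨k, hk1, hk2⟩ := (h.and (eventually_ge_atTop N)).exists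
  obtain ⟨a, ha, haS, h4⟩ := NB_pos_of_block hk1
  refine ⟨a, ?_, haS, h4⟩
  rw [block, mem_Ico] at ha
  have h5 : k < 2 ^ k := Nat.lt_two_pow_self
  omega

theorem bounded_small (S : Set ℕ) (N : ℕ) : ∃ M : ℝ, ∀ a < N, (∃ n ∈ S, a < n) → ∃ n ∈ S, a < n ∧ (n : ℝ) ≤ M := by
  classical
  induction N with
  | zero => exact ⟨0, fun a ha => absurd ha (Nat.not_lt_zero a)⟩
  | succ N ih =>
    obtain ⟨M, hM⟩ := ih
    by_cases h2 : ∃ n ∈ S, N < n
    · obtain ⟨n, hn, hNn⟩ := h2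
      refine ⟨max M n, fun a ha h3 => ?_⟩
      rcases Nat.lt_succ_iff_lt_or_eq.1 ha with h4 | h4
      · obtain ⟨m, hm, h5, h6⟩ := hM a h4 h3
        exact ⟨m, hm, h5, h6.trans (le_max_left _ _)⟩
      · rw [h4]
        exact ⟨n, hn, hNn, le_max_right _ _⟩
    · refine ⟨M, fun a ha h3 => ?_⟩
      rcases Nat.lt_succ_iff_lt_or_eq.1 ha with h4 | h4
      · exact hM a h4 h3
      · rw [h4] at h3
        exact absurd h3 h2

/-- Without long gaps `LowG` fails. -/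
theorem not_lowG {S : Set ℕ} {c c' : ℝ} (hc0 : 0 < c) (hc : c' ≤ c)
    (h : ∀ᶠ a : ℕ in atTop, a ∈ S → ∃ n ∈ S, a < n ∧ (n : ℝ) ≤ a + c' * Real.log a ^ 2) (hinf : ∀ a : ℕ, ∃ n ∈ S, a < n) :
    ¬ LowG c S := by
  intro hL
  obtain ⟨K, hK⟩ := eventually_atTop.1 h
  obtain ⟨M, hM⟩ := bounded_small S (max K 1)
  have h2 : Tendsto (fun X : ℕ => c * Real.log X ^ 2) atTop atTop := by
    have h3 : Tendsto (fun X : ℕ => Real.log X) atTop atTop := Real.tendsto_log_atTop.comp tendsto_natCast_atTop_atTop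
    exact ((tendsto_pow_atTop (by norm_num)).comp h3).const_mul_atTop hc0
  obtain ⟨X, hX1, hX2⟩ := (hL.and (h2.eventually_ge_atTop M)).exists
  obtain ⟨a, haS, haX, h3⟩ := hX1
  rcases lt_or_ge a (max K 1) with h4 | h4
  · obtain ⟨n, hn, h6, h7⟩ := hM a h4 (hinf a)
    refine h3 n hn ⟨h6, ?_⟩
    have : (0 : ℝ) ≤ a := Nat.cast_nonneg a
    linarith
  · obtain ⟨n, hn, h6, h7⟩ := hK a ((le_max_left _ _).trans h4) haS
    refine h3 n hn ⟨h6, h7.trans ?_⟩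
    have ha1 : 1 ≤ a := (le_max_right _ _).trans h4
    have h8 : Real.log a ≤ Real.log X := Real.log_le_log (by exact_mod_cast ha1) (by exact_mod_cast haX)
    have h9 : 0 ≤ Real.log a := Real.log_natCast_nonneg a
    have h10 : Real.log a ^ 2 ≤ Real.log X ^ 2 := pow_le_pow_left₀ h9 h8 2
    have h11 := mul_le_mul_of_nonneg_right hc (sq_nonneg (Real.log a))
    have h12 := mul_le_mul_of_nonneg_left h10 hc0.le
    linarith

theorem not_infGaps {S : Set ℕ} {c c' : ℝ} (hc : c' ≤ c)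
    (h : ∀ᶠ a : ℕ in atTop, a ∈ S → ∃ n ∈ S, a < n ∧ (n : ℝ) ≤ a + c' * Real.log a ^ 2) : ¬ InfGaps c S := by
  intro hL
  obtain ⟨a, h1, haS, h2⟩ := (h.and_frequently hL).exists
  obtain ⟨n, hn, h6, h7⟩ := h1 haS
  refine h2 n hn ⟨h6, h7.trans ?_⟩
  have h11 := mul_le_mul_of_nonneg_right hc (sq_nonneg (Real.log a))
  linarith

theorem ne_zero_of_lower {S : Set ℕ} {c : ℝ}
    (h : ∀ ε : ℝ, 0 < ε → ∀ᶠ k : ℕ in atTop, (2 : ℝ) ^ ((1 - c - ε) * k) ≤ NB S c k) : ∀ᶠ k : ℕ in atTop, NB S c k ≠ 0 := by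
  filter_upwards [h 1 one_pos] with k hk h0
  rw [h0, Nat.cast_zero] at hk
  have : (0 : ℝ) < (2 : ℝ) ^ ((1 - c - 1) * k) := by positivity
  linarith

/-- (II) -/
theorem infGaps_iff (J : LJobs) {δ c : ℝ} (hδ : 0 ≤ δ) (hδ1 : δ < 1) (hc : 0 < c) : AllLevel δ (InfGaps c) ↔ c < 1 - δ := by
  constructor
  · intro h
    by_contra h1
    rw [not_lt] at h1
    exact SI.not_all (some_none J hδ hδ1) (fun S hS hG => not_infGaps h1 hS.1 hG) h
  · intro h Ω _ μ _ A hA hD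
    filter_upwards [all_lower J hc h hδ Ω μ A hA hD] with ω h1
    exact infGaps_of_lower (ne_zero_of_lower h1)

/-- (III) -/
theorem lowG_iff (J : LJobs) {δ c : ℝ} (hδ : 0 ≤ δ) (hδ1 : δ < 1) (hc : 0 < c) : AllLevel δ (LowG c) ↔ c < 1 - δ := by
  constructor
  · intro h
    by_contra h1
    rw [not_lt] at h1
    exact SI.not_all (some_none J hδ hδ1) (fun S hS hG => not_lowG hc h1 hS.1 hS.2 hG) h
  · intro h Ω _ μ _ A hA hD
    filter_upwards [all_lower J (c := (c + (1 - δ)) / 2) (by linarith) (by linarith) hδ Ω μ A hA hD] with ω h1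
    exact lowG_of_lower hc (by linarith) (ne_zero_of_lower h1)

/-- (IV) -/
theorem upper_iff (J : LJobs) {δ c θ : ℝ} (hδ : 0 ≤ δ) (hδ1 : δ < 1) (hc : 0 < c) (hθ : 0 ≤ θ) :
    AllLevel δ (Upper c θ) ↔ max (1 - c) δ ≤ θ := by
  refine ⟨fun h => ?_, fun h => all_upper J hδ hc h⟩
  by_contra h1
  rw [not_le, lt_max_iff] at h1
  rcases h1 with h1 | h1
  · have h2 : AllLevel 0 (fun S => ∀ ε : ℝ, 0 < ε → ∀ᶠ k : ℕ in atTop, (2 : ℝ) ^ ((1 - c - ε) * k) ≤ NB S c k) :=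
      all_lower J hc (by linarith) le_rfl
    refine SI.not_all (some_of_all J (δ' := δ) h2) (fun S hS hU => ?_) h
    set ε : ℝ := (1 - c - θ) / 3 with hε
    have hε0 : 0 < ε := by
      rw [hε]
      linarith
    obtain ⟨k, ⟨hk1, hk2⟩, hk3⟩ := (((hS ε hε0).and (hU ε hε0)).and (eventually_ge_atTop 1)).exists
    have h3 := hk1.trans hk2
    rw [Real.rpow_le_rpow_left_iff (by norm_num)] at h3
    have hk0 : (0 : ℝ) < k := by
      have : 0 < k := hk3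
      exact_mod_cast this
    have h4 := le_of_mul_le_mul_right h3 hk0
    linarith
  · refine SI.not_all (some_many J (hθ.trans_lt h1) hδ1) (fun S hS hU => ?_) h
    set ε : ℝ := (δ - θ) / 3 with hε
    have hε0 : 0 < ε := by
      rw [hε]
      linarith
    obtain ⟨k, ⟨hk1, hk2⟩, hk3⟩ := (((hS c ε hε0).and (hU ε hε0)).and (eventually_ge_atTop 1)).exists
    have h3 := hk1.trans hk2
    rw [Real.rpow_le_rpow_left_iff (by norm_num)] at h3
    have hk0 : (0 : ℝ) < k := by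
      have : 0 < k := hk3
      exact_mod_cast this
    have h4 := le_of_mul_le_mul_right h3 hk0
    linarith

theorem NB_anti (S : Set ℕ) {c c' : ℝ} (h : c ≤ c') (k : ℕ) : NB S c' k ≤ NB S c k := by
  classical
  unfold NB
  refine card_le_card (fun a ha => ?_)
  rw [mem_filter] at ha ⊢
  refine ⟨ha.1, ha.2.1, fun n hn h1 => ha.2.2 n hn ⟨h1.1, h1.2.trans ?_⟩⟩
  have := mul_le_mul_of_nonneg_right h (sq_nonneg (Real.log a))
  linarith

/-- The growth for all `c` simultaneously. -/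
theorem growth_all (J : LJobs) {δ : ℝ} (hδ : 0 ≤ δ) (hδ1 : δ < 1) : AllLevel δ (fun S => ∀ c : ℝ, 0 < c → c < 1 - δ → Growth c S) := by
  intro Ω _ μ _ A hA hD
  have h1 : ∀ q : ℚ, ∀ᵐ ω ∂μ, 0 < (q : ℝ) → (q : ℝ) < 1 - δ → Growth (q : ℝ) (A ω) := by
    intro q
    by_cases h2 : 0 < (q : ℝ) ∧ (q : ℝ) < 1 - δ
    · filter_upwards [(growth_iff J hδ hδ1 h2.1).2 h2.2 Ω μ A hA hD] with ω hω _ _
      exact hω
    · refine Filter.Eventually.of_forall (fun ω h3 h4 => absurd ⟨h3, h4⟩ h2)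
  filter_upwards [ae_all_iff.2 h1] with ω hω c hc hc1 ε hε
  obtain ⟨q1, h2, h3⟩ := exists_rat_btwn (show c < min (1 - δ) (c + ε / 2) from lt_min hc1 (by linarith))
  obtain ⟨q2, h4, h5⟩ := exists_rat_btwn (show max 0 (c - ε / 2) < c from max_lt hc (by linarith))
  have h6 := hω q1 (hc.trans h2) (h3.trans_le (min_le_left _ _)) (ε / 2) (by positivity)
  have h7 := hω q2 ((le_max_left _ _).trans_lt h4) (h5.trans hc1) (ε / 2) (by positivity)
  filter_upwards [h6, h7] with k h8 h9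
  have hk0 : (0 : ℝ) ≤ k := Nat.cast_nonneg k
  have h10 : (q1 : ℝ) < c + ε / 2 := h3.trans_le (min_le_right _ _)
  have h11 : c - ε / 2 < (q2 : ℝ) := (le_max_right _ _).trans_lt h4
  constructor
  · have h12 : (NB (A ω) (q1 : ℝ) k : ℝ) ≤ NB (A ω) c k := by exact_mod_cast NB_anti (A ω) h2.le k
    refine le_trans (Real.rpow_le_rpow_of_exponent_le (by norm_num) ?_) (h8.1.trans h12)
    exact mul_le_mul_of_nonneg_right (by linarith) hk0
  · have h12 : (NB (A ω) c k : ℝ) ≤ NB (A ω) (q2 : ℝ) k := by exact_mod_cast NB_anti (A ω) h5.le k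
    refine (h12.trans h9.2).trans (Real.rpow_le_rpow_of_exponent_le (by norm_num) ?_)
    exact mul_le_mul_of_nonneg_right (by linarith) hk0

theorem some_and {δ : ℝ} {E F : Set ℕ → Prop} (h : SomeLevel δ E) (h' : AllLevel δ F) : SomeLevel δ (fun S => E S ∧ F S) := by
  obtain ⟨Ω, mΩ, μ, hμ, A, hA, hD, hE⟩ := h
  refine ⟨Ω, mΩ, μ, hμ, A, hA, hD, ?_⟩
  filter_upwards [hE, h' Ω μ A hA hD] with ω h1 h2
  exact ⟨h1, h2⟩

/-- **Main theorem of project LG.** -/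
theorem main (J : LJobs) (δ : ℝ) (hδ : 0 ≤ δ) (hδ1 : δ < 1) :
    (∀ c : ℝ, 0 < c →
      (AllLevel δ (Growth c) ↔ c < 1 - δ) ∧ (AllLevel δ (InfGaps c) ↔ c < 1 - δ) ∧ (AllLevel δ (LowG c) ↔ c < 1 - δ) ∧
      ∀ θ : ℝ, 0 ≤ θ → (AllLevel δ (Upper c θ) ↔ max (1 - c) δ ≤ θ)) ∧
    SomeLevel δ (fun S => (∀ᶠ a : ℕ in atTop, a ∈ S → ∃ n ∈ S, a < n ∧ (n : ℝ) ≤ a + (1 - δ) * Real.log a ^ 2) ∧
      ∀ c : ℝ, 0 < c → c < 1 - δ → Growth c S) ∧
    (0 < δ → SomeLevel δ (fun S => ∀ C ε : ℝ, 0 < ε → ∀ᶠ k : ℕ in atTop, (2 : ℝ) ^ ((δ - ε) * k) ≤ NB S C k)) := by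
  refine ⟨fun c hc => ⟨growth_iff J hδ hδ1 hc, infGaps_iff J hδ hδ1 hc, lowG_iff J hδ hδ1 hc,
    fun θ hθ => upper_iff J hδ hδ1 hc hθ⟩, ?_, fun h => some_many J h hδ1⟩
  obtain ⟨Ω, mΩ, μ, hμ, A, hA, hD, hE⟩ := some_and (some_none J hδ hδ1) (growth_all J hδ hδ1)
  refine ⟨Ω, mΩ, μ, hμ, A, hA, hD, ?_⟩
  filter_upwards [hE] with ω h
  exact ⟨h.1.1, h.2⟩

end Pool.Agent.Q120.LG
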