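import Pool.Agent.Q120.SI.Stm

/-!
# Project LG: the large gaps of ALL random sets near Cramér's model

`A` is ANY random set of integers, `D_k` the relative entropy (nats) of its law on the block `[2 ^ k, 2 ^ (k + 1))` with respect to
Cramér's model, `D_k ≤ 2 ^ ((δ + o(1)) k)` (level `δ`, `0 ≤ δ < 1`), `N_c(k)` the number of `a ∈ A` in the block with no element of `A` in
`(a, a + c log ^ 2 a]`. Results of the project, assembled from the jobs:
(1) `N_c(k) = 2 ^ ((1 - c + o(1)) k)` almost surely for all `A` of level `δ` iff `c < 1 - δ` (`0 < c < 1`); gaps `> c log ^ 2` occur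
infinitely often almost surely for all `A` of level `δ` iff `c < 1 - δ`;
(2) `N_c(k) ≤ 2 ^ ((θ + o(1)) k)` almost surely for all `A` of level `δ` iff `max (1 - c) δ ≤ θ`;
(3) some `A` of level `δ` has almost surely only finitely many gaps `> (1 - δ) log ^ 2`: `limsup (gap / log ^ 2) ≥ 1 - δ` for all `A`, sharp.

Each job is a definition `J_… : Prop`; a theorem `t_… : J_…` is to be proved. The proofs are complete in the docstrings.
Tools: see `Pool/Agent/Q120/SI/Stm.lean` (`MIXB` and `TLT` are stated there); `GM.Basic` (`harris`), `Q112.LE.Expo` (`tail_down`).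
-/

set_option autoImplicit false

namespace Pool.Agent.Q120.LG

open Finset MeasureTheory Filter Pool.Agent.Q120.ET Pool.Agent.Q120.GM Pool.Agent.Q120.GE Pool.Agent.Q120.RZ Pool.Agent.Q120.SI
open scoped Topology

open Classical in
/-- The number of the elements `a` of the block with no element of `S` in `(a, a + c log ^ 2 a]`. -/
noncomputable def NB (S : Set ℕ) (c : ℝ) (k : ℕ) : ℕ :=
  ((block k).filter (fun a => a ∈ S ∧ ∀ n ∈ S, ¬ (a < n ∧ (n : ℝ) ≤ a + c * Real.log a ^ 2))).card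

open Classical in
/-- The number of the elements `a` of `T` with no element of `T` in `(a, a + h]`, a subset of the block. -/
noncomputable def ngb (T : Finset ℕ) (k h : ℕ) : ℕ :=
  ((block k).filter (fun a => a ∈ T ∧ a + h < 2 ^ (k + 1) ∧ ∀ n ∈ T, ¬ (a < n ∧ n ≤ a + h))).card

/-- All random sets with relative entropies at most `2 ^ ((δ + o(1)) k)` almost surely have the property `E`. -/
def AllLevel (δ : ℝ) (E : Set ℕ → Prop) : Prop :=
  ∀ (Ω : Type) [MeasurableSpace Ω] (μ : Measure Ω) [IsProbabilityMeasure μ] (A : Ω → Set ℕ), IsRandomSet A →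
    (∀ ε : ℝ, 0 < ε → ∀ᶠ k : ℕ in atTop, relEntropy μ A (block k) ≤ (2 : ℝ) ^ ((δ + ε) * k)) → ∀ᵐ ω ∂μ, E (A ω)

/-- Some random set with relative entropies at most `2 ^ ((δ + o(1)) k)` almost surely has the property `E`. -/
def SomeLevel (δ : ℝ) (E : Set ℕ → Prop) : Prop :=
  ∃ (Ω : Type) (_ : MeasurableSpace Ω) (μ : Measure Ω) (_ : IsProbabilityMeasure μ) (A : Ω → Set ℕ), IsRandomSet A ∧
    (∀ ε : ℝ, 0 < ε → ∀ᶠ k : ℕ in atTop, relEntropy μ A (block k) ≤ (2 : ℝ) ^ ((δ + ε) * k)) ∧ ∀ᵐ ω ∂μ, E (A ω)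

/-- **Job GUP.** Many gaps are unlikely in the model.
Proof. `m = ⌈2 ^ (β k)⌉₊`, `h = ⌊c (k log 2) ^ 2⌋₊`. If `m ≤ ngb` there are `a_1 < … < a_m` in the block with `a_i ∈ A`, `Ioc a_i (a_i + h)`
in the block and free of `A`; so `a_{i+1} > a_i + h` and these windows are disjoint. For a given set `{a_1, …, a_m}` with disjoint windows the
probability that all windows are free is `∏ (1 - pc n)` over the union `W` of the windows (`J_LAW`/`t_LAW`, or `indep_many`), at most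
`exp (-h m / ((k + 1) log 2))` (`prod_window_le`). The number of sets is at most `(2 ^ k) ^ m / m! ≤ (e 2 ^ k / m) ^ m`
(`Nat.choose_le_pow_div`, `Real.pow_div_factorial_le_exp`), `2 ^ k / m ≤ 2 ^ ((1 - β) k)`. The logarithm of the bound, divided by `m`, is
`1 + (1 - β) k log 2 - (c (k log 2) ^ 2 - 1) / ((k + 1) log 2)`, which is at most `-κ k` for large `k`,
`κ = (β - (1 - c)) log 2 / 2`. -/
def J_GUP : Prop := ∀ c β : ℝ, 0 < c → 0 < β → 1 - c < β → ∃ κ : ℝ, 0 < κ ∧ ∀ᶠ k : ℕ in atTop,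
  ∀ (Ω : Type) [MeasurableSpace Ω] (μ : Measure Ω) [IsProbabilityMeasure μ] (A : Ω → Set ℕ), IsModel μ pc A →
    μ.real {ω | (2 : ℝ) ^ (β * k) ≤ ngb (tr A (block k) ω) k ⌊c * (k * Real.log 2) ^ 2⌋₊} ≤
      Real.exp (-(κ * k * (2 : ℝ) ^ (β * k)))

/-- **Job GLO.** Few gaps are unlikely in the model.
Proof. `h = ⌈c ((k + 1) log 2) ^ 2⌉₊`, `a_j = 2 ^ k + j (h + 1)`, `j < J = ⌊2 ^ k / (h + 1)⌋`; `G_j` the event that `a_j ∈ A` and
`Ioc a_j (a_j + h)` is free of `A` (`a_j + h < 2 ^ (k + 1)`). The `G_j` are mutually independent (`Mutual` by `indep_many`, disjoint sets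
of coordinates) of probability `pc a_j * ∏ (1 - pc n) ≥ (1 / ((k + 1) log 2)) * exp (-(h / (k log 2)) (1 + 4 / k))` for large `k`
(`-log (1 - x) ≤ x + x ^ 2` for `0 ≤ x ≤ 1/2`), at least `2 ^ (-(c + ε) k)` for large `k`. So their sum `M` satisfies
`M ≥ (2 ^ k / (h + 1) - 1) 2 ^ (-(c + ε) k) ≥ 8 * 2 ^ (β k)` for large `k` with `ε = (1 - c - β) / 2`, and `ngb ≥ num J G`;
`tail_down` (with `κ = 1/2`) gives at most `exp (-M / 8)`. -/
def J_GLO : Prop := ∀ c β : ℝ, 0 < c → β < 1 - c → ∀ᶠ k : ℕ in atTop,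
  ∀ (Ω : Type) [MeasurableSpace Ω] (μ : Measure Ω) [IsProbabilityMeasure μ] (A : Ω → Set ℕ), IsModel μ pc A →
    μ.real {ω | (ngb (tr A (block k) ω) k ⌈c * ((k + 1) * Real.log 2) ^ 2⌉₊ : ℝ) ≤ (2 : ℝ) ^ (β * k)} ≤
      Real.exp (-(2 : ℝ) ^ (β * k))

/-- A block without gaps longer than `c (k log 2) ^ 2`, also at both ends. -/
def NoGap (c : ℝ) (k : ℕ) (T : Finset ℕ) : Prop :=
  (∃ n ∈ T, (n : ℝ) ≤ 2 ^ k + c * (k * Real.log 2) ^ 2 / 3) ∧
  ∀ a ∈ T, (∃ n ∈ T, a < n ∧ (n : ℝ) ≤ a + c * (k * Real.log 2) ^ 2) ∨ 2 ^ (k + 1) - c * (k * Real.log 2) ^ 2 / 3 ≤ (a : ℝ)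

/-- **Job GHA.** Cramér's model conditioned on having no long gaps.
Proof. `h = ⌊c (k log 2) ^ 2⌋₊`, `w = h / 3`. Let `F T` say that `T` meets all windows `Ioc a (a + h) ⊆ block k`, the window
`Ico (2 ^ k) (2 ^ k + w)` and the window `Ico (2 ^ (k + 1) - w) (2 ^ (k + 1))`; it implies `NoGap` (for `a ∈ T` with
`a + h ≥ 2 ^ (k + 1)` and `a < 2 ^ (k + 1) - w` the element of `T` in the last window is larger than `a` and at most `a + h`). Let
`q = ∑ T with F T, cramerOn (block k) T`, `P T = cramerOn (block k) T / q` if `F T`, else `0` (for the small `k`: any law, e.g. `cramerOn`).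
Relative entropy: `log (1 / q)` (every term with `F T` has the logarithm `log (1 / q)`). Lower bound for `q`: in the model `q` is the
probability that the complement of `A`, a model with the probabilities `1 - pc n`, contains none of the windows (`real_event`); by
`harris` it is at least `∏ (1 - ∏ n ∈ window, (1 - pc n))`. The windows of length `h` have
`∏ (1 - pc n) ≤ exp (-h / ((k + 1) log 2)) =: e₁` (`prod_window_le`), the other two at most `exp (-w / ((k + 1) log 2)) =: e₂`. Both tend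
to `0`; `-log (1 - x) ≤ 2 x` for `0 ≤ x ≤ 1/2`, so `log (1 / q) ≤ 2 * 2 ^ k * e₁ + 4 e₂`, at most `2 ^ ((1 - c + ε) k)` for
large `k` as `e₁ ≤ 2 ^ (-(c - ε / 2) k)`. -/
def J_GHA : Prop := ∀ c : ℝ, 0 < c → c ≤ 1 → ∃ P : ℕ → Finset ℕ → ℝ,
  (∀ k, 2 ≤ k → (∀ T ∈ (block k).powerset, 0 ≤ P k T) ∧ ∑ T ∈ (block k).powerset, P k T = 1) ∧
  (∀ ε : ℝ, 0 < ε → ∀ᶠ k : ℕ in atTop,
    ∑ T ∈ (block k).powerset, P k T * Real.log (P k T / cramerOn (block k) T) ≤ (2 : ℝ) ^ ((1 - c + ε) * k)) ∧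
  ∀ᶠ k : ℕ in atTop, ∀ T ∈ (block k).powerset, P k T ≠ 0 → NoGap c k T

/-- **Job GFO** (uses MIXB and TLT; their conclusions are the hypotheses). Many very long gaps.
Proof. `m = ⌊2 ^ (δ k) / (24 k ^ 2)⌋₊`, `L = k ^ 3 + 4 k ^ 2`, spaces `J_j = Ico (2 ^ k + j L) (2 ^ k + j L + 4 k ^ 2)` and windows
`I_j = Ico (2 ^ k + j L + 4 k ^ 2) (2 ^ k + (j + 1) L)`, `j < m`; for large `k` `m L ≤ 2 ^ k`. Let `I` be the union of the `I_j`
(`I = ∅` if `k` is small). TLT with `s = 1` gives `P k` of relative entropy at most `12 ∑ n ∈ I, pc n ≤ 12 m k ^ 3 (2 / k) ≤ 2 ^ (δ k)`,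
supported on sets disjoint from `I`, and `∑ T disjoint from J_j, P k T = ∏ n ∈ J_j, (1 - pc n) ≤ exp (-4 k ^ 2 / ((k + 1) log 2)) ≤ exp (-5 k)`
(`prod_window_le`) for large `k`. Let `E k` be the sets `T ⊆ block k` disjoint from `I` which meet all `J_j`; the sum of `P k` over the others is at
most `m exp (-5 k)`, summable. MIXB with `q = 1`: almost surely `tr A (block k) ω ∈ E k` for large `k`. Then for each `j` the largest
element `a` of `A` in `J_j` has no element of `A` in `(a, a + k ^ 3]` (the rest of `J_j` and `I_j`; `a + k ^ 3 < 2 ^ k + (j + 1) L`), and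
`k ^ 3 ≥ C log ^ 2 a` for large `k`: so `NB ≥ m ≥ 2 ^ ((δ - ε) k)`. -/
def J_GFO : Prop := J_MIXB →
  (∀ k : ℕ, 2 ≤ k → ∀ I : Finset ℕ, I ⊆ block k → ∃ P : Finset ℕ → ℝ, (∀ T ∈ (block k).powerset, 0 ≤ P T) ∧
    ∑ T ∈ (block k).powerset, P T = 1 ∧
    ∑ T ∈ (block k).powerset, P T * Real.log (P T / cramerOn (block k) T) ≤ 12 * ∑ n ∈ I, pc n ∧
    (∀ J : Finset ℕ, J ⊆ block k → Disjoint J I → ∑ T ∈ (block k).powerset with Disjoint T J, P T = ∏ n ∈ J, (1 - pc n)) ∧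
    ∀ T ∈ (block k).powerset, P T ≠ 0 → Disjoint T I) →
  ∀ δ : ℝ, 0 < δ → δ < 1 → SomeLevel δ (fun S => ∀ C ε : ℝ, 0 < ε → ∀ᶠ k : ℕ in atTop, (2 : ℝ) ^ ((δ - ε) * k) ≤ NB S C k)

end Pool.Agent.Q120.LG
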